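import Pool.Agent.Helper57.MT.Goals
import Pool.Agent.Helper75.LG.PH

/-!
# MP_69be96_nt, project MC2, packet TT: harmonic sums over the integers prime to `N`
-/

set_option autoImplicit false

open Finset Filter Topology

open scoped Classical

namespace Pool.Agent.Helper22.MT

/-- the function `1/n` as a monoid homomorphism -/
noncomputable def ff : ℕ →* ℝ where
  toFun n := 1 / (n : ℝ)
  map_one' := by simp
  map_mul' a b := by
    push_cast
    rw [one_div_mul_one_div]

theorem ff_apply (n : ℕ) : ff n = 1 / (n : ℝ) := rfl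

theorem ff_prime {p : ℕ} (hp : p.Prime) : ‖ff p‖ < 1 := by
  have h1 : (1 : ℝ) < p := by exact_mod_cast hp.one_lt
  rw [ff_apply, Real.norm_of_nonneg (by positivity), div_lt_one (by linarith)]
  exact h1

/-- the harmonic sum over `s`-factored integers is at most the Euler product -/
theorem sum_le_prod (s A : Finset ℕ) (hs : ∀ p ∈ s, p.Prime)
    (hA : ∀ m ∈ A, m ≠ 0 ∧ m.primeFactors ⊆ s) :
    ∑ m ∈ A, 1 / (m : ℝ) ≤ ∏ p ∈ s, (1 - 1 / (p : ℝ))⁻¹ := by
  obtain ⟨-, h2⟩ :=
    EulerProduct.summable_and_hasSum_factoredNumbers_prod_filter_prime_geometric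
      (f := ff) (fun hp => ff_prime hp) s
  have hfs : s.filter Nat.Prime = s := Finset.filter_true_of_mem hs
  rw [hfs] at h2
  simp only [ff_apply] at h2
  have hmem : ∀ m ∈ A, m ∈ Nat.factoredNumbers s := fun m hm =>
    Nat.mem_factoredNumbers_iff_primeFactors_subset.2 (hA m hm)
  let B : Finset (Nat.factoredNumbers s) :=
    A.attach.map ⟨fun m => ⟨m.1, hmem m.1 m.2⟩, fun a b h => by
      have := congrArg Subtype.val h
      exact Subtype.ext this⟩
  have h3 : ∑ m ∈ A, 1 / (m : ℝ) = ∑ m ∈ B, 1 / ((m : ℕ) : ℝ) := by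
    rw [Finset.sum_map, ← Finset.sum_attach]
    rfl
  rw [h3]
  exact sum_le_hasSum B (fun m _ => by positivity) h2

theorem tt : Pool.Agent.Helper57.MT.StmtTT := by
  obtain ⟨C, hC, hPH⟩ := Pool.Agent.Helper75.LG.ph
  refine ⟨max C 1, le_max_right _ _, ?_⟩
  intro X N hX hN hNX
  have hlog : 0 ≤ Real.log X := Real.log_nonneg (by exact_mod_cast (by omega : 1 ≤ X))
  have hrat : (0 : ℝ) ≤ (Nat.totient N : ℝ) / N := by positivity
  set P := (primorial X).primeFactors with hP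
  have hPm : ∀ p, p ∈ P ↔ p.Prime ∧ p ≤ X := by
    intro p
    rw [hP, Nat.mem_primeFactors_of_ne_zero (primorial_pos X).ne']
    constructor
    · rintro ⟨hp, hd⟩
      exact ⟨hp, (Nat.Prime.dvd_primorial_iff hp).1 hd⟩
    · rintro ⟨hp, hd⟩
      exact ⟨hp, (Nat.Prime.dvd_primorial_iff hp).2 hd⟩
  have hsub : N.primeFactors ⊆ P := by
    intro p hp
    rw [hPm]
    exact ⟨Nat.prime_of_mem_primeFactors hp,
      (Nat.le_of_dvd (by omega) (Nat.dvd_of_mem_primeFactors hp)).trans hNX⟩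
  have h1 : ∑ m ∈ (Icc 1 X).filter (fun m => Nat.Coprime m N), 1 / (m : ℝ) ≤
      ∏ p ∈ P \ N.primeFactors, (1 - 1 / (p : ℝ))⁻¹ := by
    apply sum_le_prod
    · intro p hp
      exact ((hPm p).1 (Finset.mem_sdiff.1 hp).1).1
    · intro m hm
      obtain ⟨hm1, hm2⟩ := Finset.mem_filter.1 hm
      rw [Finset.mem_Icc] at hm1
      refine ⟨by omega, fun p hp => ?_⟩
      have hpp := Nat.prime_of_mem_primeFactors hp
      have hpm := Nat.dvd_of_mem_primeFactors hp
      rw [Finset.mem_sdiff, hPm]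
      refine ⟨⟨hpp, (Nat.le_of_dvd (by omega) hpm).trans hm1.2⟩, fun hpN => ?_⟩
      have hpN' := Nat.dvd_of_mem_primeFactors hpN
      have h := Nat.dvd_gcd hpm hpN'
      rw [Nat.Coprime] at hm2
      rw [hm2] at h
      exact hpp.one_lt.ne' (Nat.dvd_one.1 h)
  have h2 : ∏ p ∈ P \ N.primeFactors, (1 - 1 / (p : ℝ))⁻¹ =
      ((Nat.totient N : ℝ) / N) * ((primorial X : ℝ) / (Nat.totient (primorial X) : ℝ)) := by
    rw [Pool.Agent.Helper75.LG.ratio_eq _ (primorial_pos X).ne']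
    have h3 := Pool.Agent.Helper75.LG.ratio_eq N (by omega)
    have hN0 : (N : ℝ) ≠ 0 := by exact_mod_cast (by omega : N ≠ 0)
    have ht0 : (Nat.totient N : ℝ) ≠ 0 := by
      exact_mod_cast (Nat.totient_pos.2 (by omega)).ne'
    have h4 : ∏ p ∈ P, (1 - 1 / (p : ℝ))⁻¹ =
        (∏ p ∈ P \ N.primeFactors, (1 - 1 / (p : ℝ))⁻¹) * ((N : ℝ) / (Nat.totient N : ℝ)) := by
      rw [h3, Finset.prod_sdiff hsub]
    rw [← hP, h4]
    field_simp
  calc ∑ m ∈ (Icc 1 X).filter (fun m => Nat.Coprime m N), 1 / (m : ℝ)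
      ≤ ((Nat.totient N : ℝ) / N) * ((primorial X : ℝ) / (Nat.totient (primorial X) : ℝ)) :=
        h1.trans h2.le
    _ ≤ ((Nat.totient N : ℝ) / N) * (C * Real.log X) :=
        mul_le_mul_of_nonneg_left (hPH X hX) hrat
    _ ≤ ((Nat.totient N : ℝ) / N) * (max C 1 * Real.log X) := by
        apply mul_le_mul_of_nonneg_left _ hrat
        exact mul_le_mul_of_nonneg_right (le_max_left _ _) hlog
    _ = max C 1 * ((Nat.totient N : ℝ) / N) * Real.log X := by ring

end Pool.Agent.Helper22.MT
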